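import Pool.Agent.H95.AS.Cor
import Pool.Agent.H95.L.N882_UE_Tb

/-!
# MP_2ce3e7_ag: Jannsen's conjecture TB for Artin–Schreier coverings of affine spaces

`T : Homology k Ω` are data of motivic homology `H_i^M(X, ℚ(j))` and of `ℓ`-adic homology
`H_i(X, ℚ_ℓ(j)) ⊗ Ω` of the schemes `X` over the finite field `k`, with the Frobenius and the regulator;
`TB T X` is Jannsen's conjecture for `X` (all degrees and twists, with semisimplicity). `FT True X` means
that `X` is separated and of finite type over `k`.

For polynomials `f_1, …, f_m` in the variables `z_s`, `s ∈ σ`: `zeroS f` is the closed subscheme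
`f_1 = … = f_m = 0` of the affine space; `asS p f` is the Artin–Schreier covering
`w^p - w = ∑ x_l f_l(z)` of the affine space with the coordinates `z_s` and `x_1, …, x_m`; and `covS S f`
is the covering `∏_{c ∈ S} (w - c) = ∑ x_l f_l(z)` of the same affine space, for a finite subset `S` of
`k`. For a trilinear form `t(x, y, z) = ∑ t_ijl x_i y_j z_l` the polynomials `bq t` are the `c`
bilinear forms `∑ t_ijl x_i y_j`, so that `asS p (bq t)` is the covering `w^p - w = t(x, y, z)`.
-/

set_option autoImplicit false

open CategoryTheory AlgebraicGeometry MvPolynomial Pool.Agent.Y116.UV Pool.Agent.N882.UE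
  Pool.Agent.H95.AS

namespace Pool.Agent.Results.MP_2ce3e7_ag.ArtinSchreierCovers

/-- The standard properties of motivic and `ℓ`-adic homology which are used. Besides those of
`IsTheory` (finite-dimensional `ℓ`-adic groups, invariance of the regulator, localisation sequences,
Jouanolou's affine bundles, products with `𝔾_m`) these are: the groups of an open and closed subscheme
of `X` are direct factors of those of `X`; and Quillen's form of homotopy invariance: if `q : V ⟶ S` is
flat and all its fibres are affine spaces of dimension `r`, then the groups of `V` and of `S` are the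
same up to the shift by `r`. -/
structure IsFlatTheory {k Ω : Type} [Field k] [Field Ω] (T : Homology k Ω) : Prop
    extends IsTheory T where
  clopen : ∀ {Z X : Sch k} (i : Z ⟶ X), FT True X → IsClosedImmersion i.left →
    IsOpenImmersion i.left → IsFactor T Z X 0
  fibres : ∀ {V S : Sch k} (q : V ⟶ S) (r : ℕ), FT True V → FT True S → Flat q.left →
    AffineFibres q.left r → IsFactor T S V r ∧ IsFactor T V S (-r)

/-- `TB` is true for all separated schemes of finite type of dimension at most `d`. -/
def AllDim {k Ω : Type} [Field k] [Field Ω] (T : Homology k Ω) (d : ℕ) : Prop :=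
  ∀ X : Sch k, FT True X → topologicalKrullDim X.left ≤ d → TB T X

/-- The closure properties of the class of schemes with the property `TB`. -/
theorem fla_tb {k Ω : Type} [Field k] [Field Ω] [CharZero Ω] {T : Homology k Ω}
    (hT : IsFlatTheory T) (h1 : TB T (aff k k)) : Fla (TB T) where
  toBnd := bnd_tb hT.toIsTheory h1
  clopen i hX hc ho h := tb_factor hT.toIsTheory (hT.clopen i hX hc ho) h
  fibres q r hV hS hq hr :=
    ⟨fun h => tb_factor hT.toIsTheory (hT.fibres q r hV hS hq hr).2 h,
      fun h => tb_factor hT.toIsTheory (hT.fibres q r hV hS hq hr).1 h⟩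

/-- **Theorem.** Let `T` be motivic and `ℓ`-adic homology of the schemes over the finite field `k` of
characteristic `p`; `TB` is known in dimension at most one (`curves`).
(1) For all polynomials `f_1, …, f_m` in `n` variables, `TB` is true for the Artin–Schreier covering
`w^p - w = ∑ x_l f_l(z)` of the affine space of dimension `n + m` if and only if it is true for the
scheme `f_1 = … = f_m = 0`. The same holds for the covering `∏_{c ∈ S} (w - c) = ∑ x_l f_l(z)`, for all
`S ⊆ k` with at least two elements (double coverings, Kummer coverings).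
(2) For all `d`, `TB` for all separated schemes of finite type of dimension at most `d` is equivalent to
`TB` for the Artin–Schreier coverings `w^p - w = t(x, y, z)` of affine spaces, for the trilinear forms
`t` with at most `d + 2` variables `z`.
(3) `TB` is true for the Artin–Schreier covering `w^p - w = ∑ x_l f_l(z)` if `n ≤ 2`, or if the scheme
`f_1 = … = f_m = 0` has dimension at most one; and for `w^p - w = t(x, y, z)` if there are at most three
variables `z`.
(4) If `k` is a prime field, `TB` for all separated schemes of finite type is equivalent to `TB` for the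
coverings `w^p - w = ∑_l z_l ∑_{(i, j) ∈ E_l} x_i y_j` in which every `z_l` occurs in at most three
monomials.
(5) The Artin–Schreier coverings are smooth over `k`, and étale, finite and free of rank `p` over the
affine space. -/
theorem result {k Ω : Type} [Field k] [Finite k] [Field Ω] [CharZero Ω] (p : ℕ) [Fact p.Prime]
    [CharP k p] (T : Homology k Ω) (hT : IsFlatTheory T)
    (curves : ∀ X : Sch k, FT True X → topologicalKrullDim X.left ≤ 1 → TB T X) :
    (∀ (n m : ℕ) (f : Fin m → MvPolynomial (Fin n) k),
      (TB T (asS p f) ↔ TB T (zeroS f)) ∧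
      ∀ S : Finset k, 2 ≤ S.card → (TB T (covS S f) ↔ TB T (zeroS f))) ∧
    (∀ d : ℕ, AllDim T d ↔ ∀ (a b c : ℕ) (t : Fin a → Fin b → Fin c → k), c ≤ d + 2 →
      TB T (asS p (bq t))) ∧
    ((∀ (n m : ℕ) (f : Fin m → MvPolynomial (Fin n) k),
        (n ≤ 2 ∨ topologicalKrullDim (zeroS f).left ≤ 1) → TB T (asS p f)) ∧
      ∀ (a b c : ℕ) (t : Fin a → Fin b → Fin c → k), c ≤ 3 → TB T (asS p (bq t))) ∧
    ((Nat.card k).Prime → ((∀ X : Sch k, FT True X → TB T X) ↔
      ∀ (a b c : ℕ) (E : Fin c → Finset (Fin a × Fin b)), (∀ l, (E l).card ≤ 3) →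
        TB T (asS p (bf k E)))) ∧
    ∀ (n m : ℕ) (f : Fin m → MvPolynomial (Fin n) k), Smooth (asS p f).hom ∧
      Algebra.Etale (MvPolynomial (Fin m) (MvPolynomial (Fin n) k)) (ASRing p f) ∧
      Module.Finite (MvPolynomial (Fin m) (MvPolynomial (Fin n) k)) (ASRing p f) ∧
      Module.Free (MvPolynomial (Fin m) (MvPolynomial (Fin n) k)) (ASRing p f) ∧
      Module.finrank (MvPolynomial (Fin m) (MvPolynomial (Fin n) k)) (ASRing p f) = p := by
  have h1 : TB T (aff k k) := by
    refine curves _ (ft_aff True) ?_
    rw [Pool.Agent.Z125.UN.topDim_aff, ringKrullDim_eq_zero_of_field]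
    exact zero_le_one
  have hP := fla_tb hT h1
  have c1 : ∀ X : Sch k, FT True X → topologicalKrullDim X.left ≤ (1 : ℕ) → TB T X :=
    fun X hX hd => curves X hX (by exact_mod_cast hd)
  refine ⟨fun n m f => ⟨asS_iff hP p f, fun S hS => covS_iff hP S hS f⟩, dim_as hP p,
    ⟨fun n m f h => ?_, ?_⟩, fun hp => three_as hP (int_surj hp) p, fun n m f => ?_⟩
  · rw [asS_iff hP p f]
    rcases h with h | h
    · exact zeroS_dim hP c1 h f
    · exact curves _ (ft_aff True) h
  · exact (dim_as hP p 1).mp c1
  · exact ⟨as_smooth p f, as_etale (k := k) p f, (as_free p f).1, (as_free p f).2, as_rank p f⟩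

end Pool.Agent.Results.MP_2ce3e7_ag.ArtinSchreierCovers
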