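import Pool.Agent.H57.TB.Res
import Pool.Agent.H9.LG.Main

/-!
# Jannsen's conjecture TB and labelled graphs of maximal degree three

`T k : Homology k Ω` are data of motivic homology `H_i^M(X, ℚ(j))` and of `ℓ`-adic homology
`H_i(X, ℚ_ℓ(j)) ⊗ Ω` of the schemes `X` over the finite field `k` of characteristic `p`, with the
Frobenius and the regulator; `TB (T k) X` is Jannsen's conjecture for `X` (all degrees and twists, with
semisimplicity). `FT True X` means that `X` is separated and of finite type over `k`.

Let `G` be a finite bipartite graph of maximal degree at most three, whose edges are labelled by elements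
of `k` and by variables `x_1, …, x_d` (`LabelledGraph k d`). Its adjacency matrix `G.adj` is a symmetric
matrix of labels and zeros, with at most three elements different from zero in each row, and `G.scheme`
is the open subscheme of the affine space of dimension `d` where this matrix is invertible. (Up to a sign
the determinant is the square of the signed sum over the perfect matchings of `G` of the products of the
labels of the edges.)

**Theorem.** Let `n` be a natural number.
(1) TB for all separated schemes of finite type of dimension at most `n` over all finite fields of
characteristic `p` is equivalent to TB over the prime field for the open subschemes `G.scheme` of the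
affine space of dimension `n + 1`, for all labelled bipartite graphs `G` of maximal degree at most three
whose edges are labelled by `1` and by the variables `x_1, …, x_(n+1)`.
(2) For every finite field `k` of characteristic `p`, TB for all separated schemes of finite type of
dimension at most `n` over `k` is equivalent to TB for the schemes `G.scheme` of the labelled graphs over
`k` with the variables `x_1, …, x_(n+1)`.
(3) For each separated scheme `X` of finite type and of dimension at most `n` over a finite field of
characteristic `p` there are finitely many graphs as in (1) such that TB for their schemes over the prime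
field implies TB for `X`. (The graphs depend only on `X`, and not on the theories `T`, that is not on
`ℓ`.)

So the first open case, TB for surfaces, is a question about graphs with the labels `1, x_1, x_2, x_3`.

Proof. A separated scheme of finite type and of dimension at most `n` is obtained from complements of
hypersurfaces in the affine space of dimension `n + 1` by the operations under which the conjecture is
stable, and every polynomial is up to units and powers the determinant of a matrix with at most three
entries `1, x_1, …, x_(n+1)` different from zero in each row and column (a sparse form of the theorem of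
Valiant, in the starting library: `MP_fc2ced_ag.SparseLinearSections`); the graph is the bipartite graph
of such a matrix.
-/

set_option autoImplicit false

open CategoryTheory AlgebraicGeometry Pool.Agent.Y116.UV Pool.Agent.N882.UE Pool.Agent.H57.TB
  Pool.Agent.H9.LG Pool.Agent.H9.CD

namespace Pool.Agent.Results.MP_2ce3e7_ag.LabelledGraphs

/-- `T k` are motivic and `ℓ`-adic homology of the schemes over the finite fields `k` of characteristic
`p`: they have the standard properties `IsTheory`, `TB` is true for the points, and `T` is compatible with
the restriction of scalars from `k` to the prime field. -/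
structure IsTheories (p : ℕ) [Fact p.Prime] {Ω : Type} [Field Ω]
    (T : ∀ (k : Type) [Field k], Homology k Ω) : Prop where
  theory : ∀ (k : Type) [Field k] [Finite k] [CharP k p], IsTheory (T k)
  point : ∀ (k : Type) [Field k] [Finite k] [CharP k p], TB (T k) (aff k k)
  restriction : ∀ (k : Type) [Field k] [Finite k] [Algebra (ZMod p) k] (X : Sch k), FT True X →
    IsInduced (T (ZMod p)) (T k) (Module.finrank (ZMod p) k - 1) (res (ZMod p) X) X

section

variable {k Ω : Type} [Field k] [Field Ω] (T : Homology k Ω)

/-- TB for all separated schemes of finite type over `k` of dimension at most `n`. -/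
def AllSchemes (n : ℕ) : Prop :=
  ∀ X : Sch k, FT True X → topologicalKrullDim X.left ≤ n → TB T X

/-- TB for the open subschemes of the affine space of dimension `d` where the adjacency matrix of `G` is
invertible, for all bipartite graphs `G` of maximal degree at most three, labelled by elements of `k` and
by `d` variables. -/
def AllGraphs (d : ℕ) : Prop := ∀ G : LabelledGraph k d, TB T G.scheme

/-- The same for the graphs labelled by `1` and by `d` variables. -/
def OnesGraphs (d : ℕ) : Prop := ∀ G : LabelledGraph k d, G.Ones → TB T G.scheme

end

/-- **Theorem.** Let `T k` be motivic and `ℓ`-adic homology of the schemes over the finite fields `k` of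
characteristic `p`, for the elements `θ` of a set (of prime numbers `ℓ`, for example).
(1) TB for all separated schemes of finite type of dimension at most `n` over all finite fields of
characteristic `p` is equivalent to TB over the prime field for the labelled graphs with the labels `1`
and `x_1, …, x_(n+1)`.
(2) TB for all separated schemes of finite type of dimension at most `n` over the finite field `k` is
equivalent to TB for the labelled graphs over `k` with the variables `x_1, …, x_(n+1)`.
(3) For each separated scheme `X` of finite type and of dimension at most `n` over `k` there are finitely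
many labelled graphs with the labels `1` and `x_1, …, x_(n+1)` such that, for each `θ`, TB for them over
the prime field implies TB for `X`. -/
theorem result (p : ℕ) [Fact p.Prime] {Θ : Type*} {Ω : Θ → Type} [∀ θ, Field (Ω θ)]
    [∀ θ, CharZero (Ω θ)] (T : ∀ (θ : Θ) (k : Type) [Field k], Homology k (Ω θ))
    (hT : ∀ θ, IsTheories p (T θ)) (n : ℕ) :
    (∀ θ, (∀ (k : Type) [Field k] [Finite k] [CharP k p], AllSchemes (T θ k) n) ↔
      OnesGraphs (T θ (ZMod p)) (n + 1)) ∧
    (∀ (k : Type) [Field k] [Finite k] [CharP k p] (θ : Θ),
      AllSchemes (T θ k) n ↔ AllGraphs (T θ k) (n + 1)) ∧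
    ∀ (k : Type) [Field k] [Finite k] [CharP k p] (X : Sch k), FT True X →
      topologicalKrullDim X.left ≤ n → ∃ L : List (LabelledGraph (ZMod p) (n + 1)),
        (∀ G ∈ L, G.Ones) ∧ ∀ θ, (∀ G ∈ L, TB (T θ (ZMod p)) G.scheme) → TB (T θ k) X := by
  have hk : Pool.Agent.Q193.LT.Frac (ZMod p) :=
    Pool.Agent.Q193.LT.frac_of_surj ZMod.intCast_surjective
  have : NeZero p := ⟨(Fact.out : p.Prime).ne_zero⟩
  have hB : ∀ (θ : Θ) (k : Type) [Field k] [Finite k] [CharP k p],
      Pool.Agent.Z125.UN.Bnd True (TB (T θ k)) := fun θ k _ _ _ =>
    bnd_tb ((hT θ).theory k) ((hT θ).point k)
  have hres : ∀ (k : Type) [Field k] [Finite k] [CharP k p] (X : Sch k), FT True X →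
      topologicalKrullDim X.left ≤ n → ∃ Y : Sch (ZMod p), FT True Y ∧
        topologicalKrullDim Y.left ≤ n ∧ ∀ θ, TB (T θ (ZMod p)) Y → TB (T θ k) X := by
    intro k _ _ _ X hX hn
    let _ : Algebra (ZMod p) k := ZMod.algebra k p
    have : Module.Finite (ZMod p) k := Module.Finite.of_finite
    have : Algebra.FiniteType (ZMod p) k := inferInstance
    exact ⟨res (ZMod p) X, ft_res hX, hn, fun θ h => tb_of_res ((hT θ).restriction k X hX) h⟩
  refine ⟨fun θ => ⟨fun h G _ => ?_, fun h k _ _ _ X hX hn => ?_⟩, fun k _ _ _ θ =>
    ⟨fun h G => ?_, fun h X hX hn => ?_⟩, fun k _ _ _ X hX hn => ?_⟩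
  · exact graphs_of_dim (hB θ (ZMod p)) (h (ZMod p)) G
  · obtain ⟨Y, hY, hd, h1⟩ := hres k X hX hn
    exact h1 θ (dim_of_graphs (hB θ (ZMod p)) (fun G hG => h G (hG hk)) Y hY hd)
  · exact graphs_of_dim (hB θ k) h G
  · exact dim_of_graphs (hB θ k) (fun G _ => h G) X hX hn
  · obtain ⟨Y, hY, hd, h1⟩ := hres k X hX hn
    let ι : Type := {G : LabelledGraph (ZMod p) (n + 1) // G.Ones}
    obtain ⟨L, hL⟩ := dim_of_graphs
      (bnd_few (g := fun G : ι => G.1.scheme) fun θ => hB θ (ZMod p))
      (fun G hG => Few.gen (g := fun G : ι => G.1.scheme) ⟨G, hG hk⟩) Y hY hd
    refine ⟨L.map Subtype.val, fun G hG => ?_, fun θ h2 => h1 θ (hL θ fun G hG => ?_)⟩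
    · obtain ⟨G', -, rfl⟩ := List.mem_map.mp hG
      exact G'.2
    · exact h2 G.1 (List.mem_map_of_mem hG)

end Pool.Agent.Results.MP_2ce3e7_ag.LabelledGraphs
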