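import Pool.Agent.H57.TB.Res
import Pool.Agent.H57.ZP.Three

/-!
# MP_2ce3e7_ag: Jannsen's conjecture TB and completions of partial matrices

`T k : Homology k Ω` are data of motivic homology `H_i^M(X, ℚ(j))` and of `ℓ`-adic homology
`H_i(X, ℚ_ℓ(j)) ⊗ Ω` of the schemes `X` over the finite field `k` of characteristic `p`, with the
Frobenius and the regulator; `TB (T k) X` is Jannsen's conjecture for `X` (all degrees and twists, with
semisimplicity). `FT True X` means that `X` is separated and of finite type over `k`.

A partial matrix `Z` over `k` has prescribed elements of `k` at some places and no elements at the other
places. For a partial square matrix `Z` let `glC Z` be the smooth affine scheme of the invertible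
completions of `Z`; it is the open subscheme `det ≠ 0` of an affine space, and every coordinate of the
affine space occurs at exactly one place of the matrix. For a partial matrix `Z` let `rkC Z` be the affine
scheme of the completions of `Z` of rank at most three. The schemes `glS k Z` and `rkS k Z` are those of
the partial matrices all of whose prescribed elements are zero, at the places of the finite set `Z`.
`Three Z` (`ThreeZ Z`) means that in each row and in each column of the partial matrix at most three
places have no prescribed zero.

**Theorem.** (1) TB for all separated schemes of finite type over all finite fields of characteristic `p`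
is equivalent to TB for the schemes of the invertible matrices over the prime field with prescribed
zeros, at most three places in each row and each column being free, and to TB for the schemes of the
matrices over the prime field of rank at most three with prescribed zeros.
(2) For every finite field `k` of characteristic `p`, TB for all separated schemes of finite type over `k`
is equivalent to TB for the schemes of the invertible completions of the partial square matrices over
`k` with at most three places without a prescribed zero in each row and each column, and to TB for the
schemes of the completions of rank at most three of the partial matrices over `k`.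

Proof. The schemes with the property TB are closed under closed-open decompositions (two out of three),
affine bundles in both directions and division by `𝔾_m` (from the starting library), and all schemes are
obtained from the invertible completions of partial matrices by these operations
(`Pool/Agent/H57/ZP/KMain.lean`: bordered matrices, and configurations as in the theorem of Mnëv). The
conjecture for a scheme over `k` follows from the conjecture for it as a scheme over the prime field,
since the `ℓ`-adic homology of the latter is induced (`Pool/Agent/H57/TB/Res.lean`).
-/

set_option autoImplicit false

open CategoryTheory AlgebraicGeometry Pool.Agent.Y116.UV Pool.Agent.N882.UE Pool.Agent.H57.ZP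
  Pool.Agent.H57.TB

namespace Pool.Agent.Results.MP_2ce3e7_ag.MatrixCompletions

/-- `T k` are motivic and `ℓ`-adic homology of the schemes over the finite fields `k` of characteristic
`p`: they have the standard properties `IsTheory`, `TB` is true for the points, and `T` is compatible with
the restriction of scalars from `k` to the prime field. -/
structure IsTheories (p : ℕ) [Fact p.Prime] {Ω : Type} [Field Ω]
    (T : ∀ (k : Type) [Field k], Homology k Ω) : Prop where
  theory : ∀ (k : Type) [Field k] [Finite k] [CharP k p], IsTheory (T k)
  point : ∀ (k : Type) [Field k] [Finite k] [CharP k p], TB (T k) (aff k k)
  restriction : ∀ (k : Type) [Field k] [Finite k] [Algebra (ZMod p) k] (X : Sch k), FT True X →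
    IsInduced (T (ZMod p)) (T k) (Module.finrank (ZMod p) k - 1) (res (ZMod p) X) X

section

variable {k Ω : Type} [Field k] [Field Ω] (T : Homology k Ω)

/-- TB for all separated schemes of finite type over `k`. -/
def AllSchemes : Prop := ∀ X : Sch k, FT True X → TB T X

/-- TB for the schemes of the invertible completions of the partial square matrices over `k` with at
most three places without a prescribed zero in each row and in each column. -/
def InvertibleCompletions : Prop :=
  ∀ (n : ℕ) (Z : Fin n → Fin n → Option k), Three Z → TB T (glC Z)

/-- TB for the schemes of the completions of rank at most three of the partial matrices over `k`. -/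
def RankCompletions : Prop := ∀ (m n : ℕ) (Z : Fin m → Fin n → Option k), TB T (rkC Z)

/-- TB for the schemes over `k` of the invertible matrices with prescribed zeros, with at most three
other places in each row and in each column. -/
def InvertibleZeros : Prop := ∀ (n : ℕ) (Z : Finset (Fin n × Fin n)), ThreeZ Z → TB T (glS k Z)

/-- TB for the schemes over `k` of the matrices of rank at most three with prescribed zeros. -/
def RankZeros : Prop := ∀ (m n : ℕ) (Z : Finset (Fin m × Fin n)), TB T (rkS k Z)

end

/-- **Theorem.** Let `T k` be motivic and `ℓ`-adic homology of the schemes over the finite fields `k` of
characteristic `p`.
(1) TB for all separated schemes of finite type over all finite fields of characteristic `p` is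
equivalent to TB for the schemes over the prime field of the invertible matrices with prescribed zeros
and at most three other places in each row and column, and to TB for the schemes over the prime field of
the matrices of rank at most three with prescribed zeros.
(2) For every finite field `k` of characteristic `p`, TB for all separated schemes of finite type over `k`
is equivalent to TB for the schemes of the invertible completions of the partial square matrices over
`k` with at most three places without a prescribed zero in each row and column, and to TB for the
schemes of the completions of rank at most three of the partial matrices. -/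
theorem result (p : ℕ) [Fact p.Prime] {Ω : Type} [Field Ω] [CharZero Ω]
    (T : ∀ (k : Type) [Field k], Homology k Ω) (hT : IsTheories p T) :
    [∀ (k : Type) [Field k] [Finite k] [CharP k p], AllSchemes (T k),
      InvertibleZeros (T (ZMod p)), RankZeros (T (ZMod p))].TFAE ∧
    ∀ (k : Type) [Field k] [Finite k] [CharP k p],
      [AllSchemes (T k), InvertibleCompletions (T k), RankCompletions (T k)].TFAE := by
  have hne : NeZero p := ⟨(Fact.out : p.Prime).ne_zero⟩
  have hk : Pool.Agent.Q193.LT.Frac (ZMod p) :=
    Pool.Agent.Q193.LT.frac_of_surj ZMod.intCast_surjective
  have hB : ∀ (k : Type) [Field k] [Finite k] [CharP k p],
      Pool.Agent.Z125.UN.Bnd True (TB (T k)) := fun k _ _ _ => bnd_tb (hT.theory k) (hT.point k)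
  have hft : ∀ (k : Type) [Field k] (n : ℕ) (Z : Fin n → Fin n → Option k),
      FT True (glC Z) := by
    intro k _ n Z
    have h1 : Algebra.FiniteType k (Localization.Away (fillMat Z).det) :=
      Algebra.FiniteType.trans (S := MvPolynomial {x : Fin n × Fin n // Z x.1 x.2 = none} k)
        inferInstance inferInstance
    exact ft_aff True
  have hft' : ∀ (n : ℕ) (Z : Finset (Fin n × Fin n)), FT True (glS (ZMod p) Z) := by
    intro n Z
    have h1 : Algebra.FiniteType (ZMod p) (Localization.Away (genMat (ZMod p) Z).det) :=
      Algebra.FiniteType.trans (S := MvPolynomial {x : Fin n × Fin n // x ∉ Z} (ZMod p))
        inferInstance inferInstance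
    exact ft_aff True
  have hres : AllSchemes (T (ZMod p)) →
      ∀ (k : Type) [Field k] [Finite k] [CharP k p], AllSchemes (T k) := by
    intro h k _ _ _ X hX
    let _ : Algebra (ZMod p) k := ZMod.algebra k p
    have : Module.Finite (ZMod p) k := Module.Finite.of_finite
    have : Algebra.FiniteType (ZMod p) k := inferInstance
    exact tb_of_res (hT.restriction k X hX) (h _ (ft_res hX))
  refine ⟨?_, fun k _ _ _ => ?_⟩
  · tfae_have 1 → 2 := fun h n Z _ => h (ZMod p) _ (hft' n Z)
    tfae_have 2 → 1 := fun h => hres fun X hX => universal_gl3 hk (hB (ZMod p)) h X hX
    tfae_have 1 → 3 := fun h m n Z => h (ZMod p) _ (ft_aff True)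
    tfae_have 3 → 1 := fun h => hres fun X hX => universal_rk hk (hB (ZMod p)) h X hX
    tfae_finish
  · tfae_have 1 → 2 := fun h n Z _ => h _ (hft k n Z)
    tfae_have 2 → 1 := fun h X hX => universal_glC3 (hB k) h X hX
    tfae_have 1 → 3 := fun h m n Z => h _ (ft_aff True)
    tfae_have 3 → 1 := fun h X hX => universal_rkC (hB k) h X hX
    tfae_finish

end Pool.Agent.Results.MP_2ce3e7_ag.MatrixCompletions
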