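import Pool.Agent.H57.TB.Res
import Pool.Agent.H92.MS.Main

/-!
# MP_2ce3e7_ag: Jannsen's conjecture TB and matroid strata of Grassmannians

`T k : Homology k Ω` are data of motivic homology `H_i^M(X, ℚ(j))` and of `ℓ`-adic homology
`H_i(X, ℚ_ℓ(j)) ⊗ Ω` of the schemes `X` over the finite field `k` of characteristic `p`, with the
Frobenius and the regulator; `TB (T k) X` is Jannsen's conjecture for `X` (all degrees and twists, with
semisimplicity). `FT True X` means that `X` is separated and of finite type over `k`.

Let `M` be the generic matrix with three rows and `m` columns over the prime field. The maximal minors of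
`(I | M)` are, up to sign, the minors of `M` of all sizes; they are the Plücker coordinates on the affine
chart of the Grassmannian of subspaces of dimension `3` in the space of dimension `3 + m` where the first
coordinate is invertible. For a set `S` of minors let `openS m S` be the open subscheme of the space
`𝔸^{3m}` of matrices where the minors in `S` are invertible (the complement of a determinantal
arrangement), and `cellS m S` the locally closed subscheme where the minors in `S` are invertible and all
the other minors vanish (the matroid strata of the Grassmannian, or thin Schubert cells: the spaces of the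
realizations of a matroid of rank three).

**Theorem.** Let `p` be a prime. The following are equivalent.
1. TB holds for all separated schemes of finite type over all finite fields of characteristic `p`.
2. TB holds for the schemes `cellS m S` over `𝔽_p`, for all `m` and `S`.
3. TB holds for the schemes `openS m S` over `𝔽_p`, for all `m` and `S`.
Moreover, for every separated scheme `X` of finite type over a finite field `k` of characteristic `p` there
is a finite list of matroid strata over `𝔽_p` such that `X`, as a scheme over `𝔽_p`, is made from the
strata in the list by closed-open decompositions (two out of three) and division by `𝔾_m`, and TB for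
`X` follows from TB for the strata in the list. The list is the same for all theories `T` (for all `ℓ`).

Proof. The geometry is a version of the theorem of Mnëv (`Pool/Agent/H92/MR`, from the starting library),
in which only tori are divided out. The conjecture for a scheme over `k` follows from the conjecture for it
as a scheme over the prime field, since the `ℓ`-adic homology of the latter is induced.
-/

set_option autoImplicit false

open CategoryTheory AlgebraicGeometry Pool.Agent.Y116.UV Pool.Agent.N882.UE Pool.Agent.H57.TB
  Pool.Agent.W5h93.EX Pool.Agent.W5h77.MR Pool.Agent.H92.MS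

namespace Pool.Agent.Results.MP_2ce3e7_ag.MatroidStrata

/-- `T k` are motivic and `ℓ`-adic homology of the schemes over the finite fields `k` of characteristic
`p`: they have the standard properties `IsTheory`, `TB` is true for the points, and `T` is compatible with
the restriction of scalars from `k` to the prime field. -/
structure IsTheories (p : ℕ) [Fact p.Prime] {Ω : Type} [Field Ω]
    (T : ∀ (k : Type) [Field k], Homology k Ω) : Prop where
  theory : ∀ (k : Type) [Field k] [Finite k] [CharP k p], IsTheory (T k)
  point : ∀ (k : Type) [Field k] [Finite k] [CharP k p], TB (T k) (aff k k)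
  restriction : ∀ (k : Type) [Field k] [Finite k] [Algebra (ZMod p) k] (X : Sch k), FT True X →
    IsInduced (T (ZMod p)) (T k) (Module.finrank (ZMod p) k - 1) (res (ZMod p) X) X

/-- The separated scheme `X` of finite type over the finite field `k` of characteristic `p`, regarded as
a scheme over `𝔽_p`, is made from the matroid strata over `𝔽_p` in the finite list `F`. -/
def ListOfStrata (p : ℕ) [Fact p.Prime] {k : Type} [Field k] [Algebra (ZMod p) k] (X : Sch k)
    (F : Finset (Σ m : ℕ, Finset (Trp m))) : Prop :=
  Made (Cells (ZMod p) F) (res (ZMod p) X)

lemma prime_zmod (p : ℕ) [Fact p.Prime] : IsPrimeField (ZMod p) := fun c => by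
  obtain ⟨z, rfl⟩ := ZMod.intCast_surjective c
  exact ⟨z, 1, by simp, by simp⟩

/-- **Theorem.** (1) TB for all separated schemes of finite type over all finite fields of characteristic
`p`, TB for the matroid strata `cellS m S` over `𝔽_p`, and TB for the complements `openS m S` over `𝔽_p`
are equivalent.
(2) Every separated scheme `X` of finite type over a finite field of characteristic `p` has a finite list
of matroid strata over `𝔽_p` from which it is made, as a scheme over `𝔽_p`; for every such list TB for
the strata in the list implies TB for `X`. -/
theorem result (p : ℕ) [Fact p.Prime] :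
    (∀ (k : Type) [Field k] [Finite k] [Algebra (ZMod p) k] (X : Sch k), FT True X →
      ∃ F, ListOfStrata p X F) ∧
    ∀ {Ω : Type} [Field Ω] [CharZero Ω] (T : ∀ (k : Type) [Field k], Homology k Ω),
      IsTheories p T →
      [∀ (k : Type) [Field k] [Finite k] [CharP k p] (X : Sch k), FT True X → TB (T k) X,
        ∀ (m : ℕ) (S : Finset (Trp m)), TB (T (ZMod p)) (cellS (ZMod p) m S),
        ∀ (m : ℕ) (S : Finset (Trp m)), TB (T (ZMod p)) (openS (ZMod p) m S)].TFAE ∧
      ∀ (k : Type) [Field k] [Finite k] [Algebra (ZMod p) k] (X : Sch k), FT True X →
        ∀ F, ListOfStrata p X F → (∀ S ∈ F, TB (T (ZMod p)) (cellS (ZMod p) S.1 S.2)) →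
          TB (T k) X := by
  have hk := prime_zmod p
  refine ⟨fun k _ _ _ X hX => ?_, fun {Ω} _ _ T hT => ?_⟩
  · have : Module.Finite (ZMod p) k := Module.Finite.of_finite
    have : Algebra.FiniteType (ZMod p) k := inferInstance
    exact (madeFromStrata hk _ (ft_res hX)).1
  have hC := cloC_of_bnd (bnd_tb (hT.theory (ZMod p)) (hT.point (ZMod p)))
  have h2 := all_iff (short_prime hk) hC.toClo hC.closed
  have hres : (∀ X : Sch (ZMod p), FT True X → TB (T (ZMod p)) X) →
      ∀ (k : Type) [Field k] [Finite k] [CharP k p] (X : Sch k), FT True X → TB (T k) X := by
    intro h k _ _ _ X hX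
    let _ : Algebra (ZMod p) k := ZMod.algebra k p
    have : Module.Finite (ZMod p) k := Module.Finite.of_finite
    have : Algebra.FiniteType (ZMod p) k := inferInstance
    exact tb_of_res (hT.restriction k X hX) (h _ (ft_res hX))
  refine ⟨?_, fun k _ _ _ X hX F hF h => ?_⟩
  · tfae_have 1 → 2 := fun h => (h2.out 0 2).mp fun X hX => h (ZMod p) X hX
    tfae_have 2 → 1 := fun h => hres ((h2.out 2 0).mp h)
    tfae_have 1 → 3 := fun h => (h2.out 0 1).mp fun X hX => h (ZMod p) X hX
    tfae_have 3 → 1 := fun h => hres ((h2.out 1 0).mp h)
    tfae_finish
  · refine tb_of_res (hT.restriction k X hX) (of_made hC ?_ _ hF)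
    rintro Y ⟨S, hS, rfl⟩
    exact h S hS

end Pool.Agent.Results.MP_2ce3e7_ag.MatroidStrata
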